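import Pool.Agent.Lib.MP_802513_agHI.HA
import Pool.Agent.Lib.MP_021685_agTL.LD

/-! Definitions used in the statement of `MP_021685_ag.AlmostAll` (Weil numbers, independent families). -/

set_option autoImplicit false

namespace TWF

open Polynomial

/-- `a` is a Weil number for `Q` (in all embeddings of the field `K` its absolute value is `√Q`), and it is not
supersingular: no power of `a ^ 2 / Q` is `1`. -/
def IsWeil (Q : ℕ) {K : Type} [Field K] (a : K) : Prop :=
  (∀ φ : K →+* ℂ, φ a * starRingEnd ℂ (φ a) = (Q : ℂ)) ∧ ∀ n : ℕ, 0 < n → a ^ (2 * n) ≠ (Q : K) ^ n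

/-- The numbers `a k` of the field `K` are multiplicatively independent modulo `Q`: there are no multiplicative relations
between the numbers `(a k) ^ 2 / Q`. -/
def IsIndep (Q : ℕ) {K J : Type} [Field K] [Fintype J] (a : J → K) : Prop :=
  ∀ m : J → ℤ, ∏ k, (a k ^ 2 / (Q : K)) ^ m k = 1 → ∀ k, m k = 0

/-- No `a k` is supersingular, and for `k ≠ l` no power of `a k` is the same power of `a l` or of `Q / a l` (for Weil numbers:
the abelian varieties with Frobenius `a k` are not supersingular and not isogenous to each other over any extension). -/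
def IsDistinct (Q : ℕ) {K J : Type} [Field K] (a : J → K) : Prop :=
  ∀ (k l : J) (n : ℕ), 0 < n → (a k * a l) ^ n ≠ (Q : K) ^ n ∧ (k ≠ l → a k ^ n ≠ a l ^ n)

end TWF
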