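import Pool.Agent.Lib.MP_021685_agTWF.WD

/-! T-WEIL2: the converse: if the Tate forms come from pairings, the Weil numbers are independent. -/

set_option autoImplicit false

namespace TWF

open Polynomial

private theorem W8_apply {ι : Type} [Fintype ι] [DecidableEq ι] (lam : ι → ℂ) (v : ι → ℂ) (i : ι) :
    Matrix.toLin' (Matrix.diagonal lam) v i = lam i * v i := by
  rw [Matrix.toLin'_apply, Matrix.mulVec_diagonal]

private theorem W8_single {ι : Type} [Fintype ι] [DecidableEq ι] (lam : ι → ℂ) (i : ι) :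
    Matrix.toLin' (Matrix.diagonal lam) (Pi.single i 1) = lam i • (Pi.single i 1 : ι → ℂ) := by
  funext j
  rw [W8_apply, Pi.smul_apply, smul_eq_mul]
  rcases eq_or_ne j i with h | h
  · rw [h]
  · rw [Pi.single_eq_of_ne h, mul_zero, mul_zero]

private theorem W8_semisimple {ι : Type} [Fintype ι] [DecidableEq ι] (lam : ι → ℂ) :
    Module.End.IsSemisimple (Matrix.toLin' (Matrix.diagonal lam)) := by
  classical
  have hsq : Squarefree (∏ z ∈ Finset.univ.image lam, (X - C z)) := by
    apply Polynomial.Separable.squarefree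
    have := (Polynomial.separable_prod_X_sub_C_iff' (f := fun z : ℂ => z)
      (s := Finset.univ.image lam)).2 fun x _ y _ h => h
    exact this
  refine Module.End.isSemisimple_of_squarefree_aeval_eq_zero hsq ?_
  apply (Pi.basisFun ℂ ι).ext
  intro i
  rw [Pi.basisFun_apply, LinearMap.zero_apply]
  have hne : (Pi.single i 1 : ι → ℂ) ≠ 0 := by
    intro h
    have h1 := congrFun h i
    rw [Pi.single_eq_same, Pi.zero_apply] at h1
    exact one_ne_zero h1
  have hev : Module.End.HasEigenvector (Matrix.toLin' (Matrix.diagonal lam)) (lam i)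
      (Pi.single i 1 : ι → ℂ) :=
    ⟨Module.End.mem_eigenspace_iff.2 (W8_single lam i), hne⟩
  rw [Module.End.aeval_apply_of_hasEigenvector hev, Polynomial.eval_prod]
  have h0 : ∏ z ∈ Finset.univ.image lam, Polynomial.eval (lam i) (X - C z) = 0 := by
    refine Finset.prod_eq_zero (Finset.mem_image_of_mem lam (Finset.mem_univ i)) ?_
    rw [Polynomial.eval_sub, Polynomial.eval_X, Polynomial.eval_C, sub_self]
  rw [h0, zero_smul]

/-- The matching of the factors of a relation, from `TI.Full`. -/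
theorem match_of_full {q : ℕ} {P : ℤ[X]} (hF : TI.Full q P) {ι : Type} [Fintype ι] [DecidableEq ι] {lam : ι → ℂ}
    (hP : P.map (Int.castRingHom ℂ) = ∏ i, (X - C (lam i))) {k : ℕ} (s : Fin k → ι)
    (hs : ∏ a, lam (s a) = ((Real.sqrt q : ℝ) : ℂ) ^ k) :
    ∃ (m : ℕ) (e : Fin m ⊕ Fin m ≃ Fin k), ∀ i,
      lam (s (e (Sum.inl i))) * lam (s (e (Sum.inr i))) = (q : ℂ) := by
  have hchar : (Matrix.toLin' (Matrix.diagonal lam)).charpoly = P.map (Int.castRingHom ℂ) := by
    rw [Matrix.charpoly_toLin', Matrix.charpoly_diagonal, hP]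
  obtain ⟨T, hTv⟩ : ∃ T : MultilinearMap ℂ (fun _ : Fin k => ι → ℂ) ℂ,
      ∀ v, T v = ∏ a, v a (s a) := by
    refine ⟨(MultilinearMap.mkPiAlgebra ℂ (Fin k) ℂ).compLinearMap
      fun a => (LinearMap.proj (s a) : (ι → ℂ) →ₗ[ℂ] ℂ), fun v => ?_⟩
    rw [MultilinearMap.compLinearMap_apply, MultilinearMap.mkPiAlgebra_apply]
    rfl
  have hT : TI.IsTate q 1 k (Matrix.toLin' (Matrix.diagonal lam)) T := by
    intro v
    rw [hTv, hTv, pow_one, one_mul, ← hs, ← Finset.prod_mul_distrib]
    exact Finset.prod_congr rfl fun a _ => W8_apply lam (v a) (s a)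
  have hspan := hF (ι → ℂ) (Matrix.toLin' (Matrix.diagonal lam)) (W8_semisimple lam) hchar 1 k
    one_pos T hT
  by_contra hcon
  have hz : ∀ T' ∈ Submodule.span ℂ {T' : MultilinearMap ℂ (fun _ : Fin k => ι → ℂ) ℂ |
      TI.IsProduct q 1 k (Matrix.toLin' (Matrix.diagonal lam)) T'},
      T' (fun a => Pi.single (s a) 1) = 0 := by
    intro T' hT'
    induction hT' using Submodule.span_induction with
    | mem T₀ h =>
      obtain ⟨m, e, b, hb, hprod⟩ := h
      rw [hprod]
      by_contra hne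
      apply hcon
      refine ⟨m, e, fun i => ?_⟩
      have hi := Finset.prod_ne_zero_iff.1 hne i (Finset.mem_univ i)
      have h1 := hb i (Pi.single (s (e (Sum.inl i))) 1) (Pi.single (s (e (Sum.inr i))) 1)
      rw [pow_one, pow_one, W8_single, W8_single, map_smul, map_smul, LinearMap.smul_apply,
        smul_eq_mul, smul_eq_mul, ← mul_assoc] at h1
      have h2 := mul_right_cancel₀ hi h1
      rw [mul_comm]
      exact h2
    | zero => rfl
    | add x y _ _ hx hy => rw [add_apply, hx, hy, add_zero]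
    | smul c x _ hx => rw [smul_apply, hx, smul_zero]
  have h1 := hz T hspan
  rw [hTv] at h1
  have h2 : ∏ a, (Pi.single (s a) (1 : ℂ) : ι → ℂ) (s a) = 1 :=
    Finset.prod_eq_one fun a _ => Pi.single_eq_same _ _
  rw [h2] at h1
  exact one_ne_zero h1

/-- The matching of the factors of a relation between roots, from `TI.Full`. -/
theorem match_of_full' {q : ℕ} {P : ℤ[X]} (hF : TI.Full q P) (hm : P.Monic) {T : Type} [Fintype T] (z : T → ℂ)
    (hz : ∀ t, aeval (z t) P = 0) (hs : ∏ t, z t = ((Real.sqrt q : ℝ) : ℂ) ^ Fintype.card T) (t : T) :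
    ∃ t', z t * z t' = (q : ℂ) := by
  classical
  set R : Multiset ℂ := (P.map (Int.castRingHom ℂ)).roots with hR
  have hmon : (P.map (Int.castRingHom ℂ)).Monic := hm.map _
  have hsplit : (R.map fun a => X - C a).prod = P.map (Int.castRingHom ℂ) :=
    ((IsAlgClosed.splits (P.map (Int.castRingHom ℂ))).eq_prod_roots_of_monic hmon).symm
  let L : List ℂ := R.toList
  let lam : Fin L.length → ℂ := fun i => L.get i
  have hP : P.map (Int.castRingHom ℂ) = ∏ i, (X - C (lam i)) := by
    rw [← hsplit, ← Multiset.coe_toList R, Multiset.map_coe, Multiset.prod_coe]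
    show _ = ∏ i : Fin L.length, (X - C (L.get i))
    rw [← List.prod_ofFn, ← List.ofFn_get (L.map fun a => X - C a)]
    congr 1
    apply List.ext_get
    · simp
    · intro n h1 h2
      simp [L]
  have hmem : ∀ t, ∃ i, lam i = z t := fun t => by
    have h1 : z t ∈ R := by
      rw [hR, mem_roots hmon.ne_zero, IsRoot.def, eval_map, ← algebraMap_int_eq]
      exact hz t
    have h2 : z t ∈ L := Multiset.mem_toList.2 h1
    obtain ⟨n, hn⟩ := List.get_of_mem h2
    exact ⟨n, hn⟩
  choose i hi using hmem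
  let e := Fintype.equivFin T
  obtain ⟨m, e', he'⟩ := match_of_full hF hP (fun a : Fin (Fintype.card T) => i (e.symm a)) (by
    rw [← hs]
    refine (Finset.prod_congr rfl fun a _ => hi (e.symm a)).trans ?_
    exact Equiv.prod_comp e.symm z)
  obtain ⟨x, hx⟩ := e'.surjective (e t)
  rcases x with x | x
  · refine ⟨e.symm (e' (Sum.inr x)), ?_⟩
    have h1 := he' x
    rw [hx, hi, hi, Equiv.symm_apply_apply] at h1
    exact h1
  · refine ⟨e.symm (e' (Sum.inl x)), ?_⟩
    have h1 := he' x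
    rw [hx, hi, hi, Equiv.symm_apply_apply, mul_comm] at h1
    exact h1

theorem indep_of_full {Q : ℕ} (hQ : 0 < Q) {K J : Type} [Field K] [NumberField K] [Fintype J] {a : J → K}
    (hW : ∀ k (φ : K →+* ℂ), φ (a k) * starRingEnd ℂ (φ (a k)) = (Q : ℂ)) (hD : IsDistinct Q a) {P : ℤ[X]}
    (hm : P.Monic) (hP : ∀ k (φ : K →+* ℂ), aeval (φ (a k)) P = 0) (hF : TI.Full Q P) : IsIndep Q a := by
  classical
  intro m hrel k0
  by_contra hk0
  obtain ⟨φ⟩ : Nonempty (K →+* ℂ) := inferInstance
  have hQC : (Q : ℂ) ≠ 0 := Nat.cast_ne_zero.2 hQ.ne'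
  have ha0 : ∀ k, φ (a k) ≠ 0 := fun k h0 => by
    have h1 := hW k φ
    rw [h0, zero_mul] at h1
    exact hQC h1.symm
  -- the factors
  let c : J → ℂ := fun k => if 0 ≤ m k then φ (a k) else starRingEnd ℂ (φ (a k))
  let T : Type := Σ k : J, Fin (2 * (m k).natAbs)
  let z : T → ℂ := fun t => c t.1
  have hc0 : ∀ k, c k ^ (2 * (m k).natAbs) = (Q : ℂ) ^ (m k).natAbs * (φ (a k) ^ 2 / (Q : ℂ)) ^ m k := by
    intro k
    by_cases h : 0 ≤ m k
    · have h1 : c k = φ (a k) := if_pos h
      obtain ⟨n, hn⟩ := Int.eq_ofNat_of_zero_le h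
      rw [h1, hn, Int.natAbs_natCast, zpow_natCast, div_pow, mul_div_cancel₀ _ (pow_ne_zero _ hQC), ← pow_mul]
    · have h1 : c k = starRingEnd ℂ (φ (a k)) := if_neg h
      obtain ⟨n, hn⟩ := Int.eq_ofNat_of_zero_le (neg_nonneg.2 (not_le.1 h).le)
      have hn' : m k = -(n : ℤ) := by omega
      have h2 : starRingEnd ℂ (φ (a k)) = (Q : ℂ) / φ (a k) := by
        rw [eq_div_iff (ha0 k), mul_comm]
        exact hW k φ
      rw [h1, h2, hn', Int.natAbs_neg, Int.natAbs_natCast, zpow_neg, zpow_natCast, div_pow, div_pow, inv_div,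
        pow_mul (Q : ℂ), ← pow_mul (φ (a k))]
      field_simp
      ring
  have hcard : Fintype.card T = 2 * ∑ k, (m k).natAbs := by
    rw [Fintype.card_sigma, Finset.mul_sum]
    exact Finset.sum_congr rfl fun k _ => Fintype.card_fin _
  have hprod : ∏ t, z t = ((Real.sqrt Q : ℝ) : ℂ) ^ Fintype.card T := by
    have h1 : ∏ t, z t = ∏ k, c k ^ (2 * (m k).natAbs) := by
      rw [Fintype.prod_sigma]
      refine Finset.prod_congr rfl fun k _ => ?_
      show ∏ _y : Fin (2 * (m k).natAbs), c k = _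
      rw [Finset.prod_const, Finset.card_univ, Fintype.card_fin]
    have h2 : ∏ k, (φ (a k) ^ 2 / (Q : ℂ)) ^ m k = 1 := by
      have h3 := congrArg φ hrel
      rw [map_prod, map_one] at h3
      rw [← h3]
      exact Finset.prod_congr rfl fun k _ => by rw [map_zpow₀, map_div₀, map_pow, map_natCast]
    rw [h1, Finset.prod_congr rfl fun k _ => hc0 k, Finset.prod_mul_distrib, h2, mul_one, Finset.prod_pow_eq_pow_sum,
      hcard, pow_mul, ← Complex.ofReal_pow, Real.sq_sqrt (Nat.cast_nonneg Q), Complex.ofReal_natCast]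
  have hroot : ∀ t, aeval (z t) P = 0 := by
    intro t
    show aeval (c t.1) P = 0
    by_cases h : 0 ≤ m t.1
    · have h1 : c t.1 = φ (a t.1) := if_pos h
      rw [h1]
      exact hP _ φ
    · have h1 : c t.1 = (starRingEnd ℂ).comp φ (a t.1) := if_neg h
      rw [h1]
      exact hP _ ((starRingEnd ℂ).comp φ)
  have hpos : 0 < 2 * (m k0).natAbs := by
    have := Int.natAbs_pos.2 hk0
    omega
  obtain ⟨t', ht'⟩ := match_of_full' hF hm z hroot hprod (⟨k0, ⟨0, hpos⟩⟩ : T)
  have h1 : c k0 * c t'.1 = (Q : ℂ) := ht'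
  generalize t'.1 = l at h1
  have hconj : ∀ k, starRingEnd ℂ (φ (a k)) = (Q : ℂ) / φ (a k) := fun k => by
    rw [eq_div_iff (ha0 k), mul_comm]
    exact hW k φ
  have hsame : ∀ k l, φ (a k) * φ (a l) = (Q : ℂ) → False := fun k l h => by
    apply (hD k l 1 one_pos).1
    apply φ.injective
    rw [map_pow, map_mul, map_pow, map_natCast, h]
  have hdiff : φ (a k0) = φ (a l) → k0 = l := fun h => by
    by_contra hne
    apply (hD k0 l 1 one_pos).2 hne
    apply φ.injective
    rw [map_pow, map_pow, h]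
  by_cases h2 : 0 ≤ m k0
  · have e1 : c k0 = φ (a k0) := if_pos h2
    by_cases h3 : 0 ≤ m l
    · have e2 : c l = φ (a l) := if_pos h3
      rw [e1, e2] at h1
      exact hsame _ _ h1
    · have e2 : c l = starRingEnd ℂ (φ (a l)) := if_neg h3
      rw [e1, e2, hconj, mul_div_assoc', div_eq_iff (ha0 l), mul_comm (Q : ℂ)] at h1
      have h4 := hdiff (mul_right_cancel₀ hQC h1)
      rw [← h4] at h3
      exact h3 h2
  · have e1 : c k0 = starRingEnd ℂ (φ (a k0)) := if_neg h2
    by_cases h3 : 0 ≤ m l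
    · have e2 : c l = φ (a l) := if_pos h3
      rw [e1, e2, hconj, div_mul_eq_mul_div, div_eq_iff (ha0 k0)] at h1
      have h4 := hdiff (mul_left_cancel₀ hQC h1).symm
      rw [← h4] at h3
      exact h2 h3
    · have e2 : c l = starRingEnd ℂ (φ (a l)) := if_neg h3
      rw [e1, e2, ← map_mul] at h1
      have h4 := congrArg (starRingEnd ℂ) h1
      rw [Complex.conj_conj, map_natCast] at h4
      exact hsame _ _ h4

end TWF
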