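import Pool.Agent.Lib.MP_021685_agTWF.W1
import Pool.Agent.Lib.MP_021685_agTL.L1

/-! T-WEIL2: several Weil numbers in every field; the homomorphisms `e x` on the conjugates of all of them. -/

set_option autoImplicit false

namespace TWF

open Polynomial Module Finset Pool.Agent.Lib.MP_802513_ag Pool.Agent.Lib.MP_802513_ag.SD TK

variable {r : ℕ} {E : Fin r → Type} [∀ t, Field (E t)] [∀ t, NumberField (E t)]

omit [∀ t, NumberField (E t)] in
theorem v_inj {Q : ℕ} (hF : HI.HasFlips E) {s : Finset (Fin r)} {a : ∀ i, E i} (ha : ∀ i ∈ s, IsWeil Q (a i))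
    {f f' : Emb E} (hf : f.1 ∈ s) (h : f.2 (a f.1) = f'.2 (a f'.1)) : f = f' := by
  by_contra hne
  obtain ⟨σ, h1, -, h3⟩ := hF f
  have key : f.conj.2 (a f.conj.1) = f.2 (a f.1) := by
    by_cases hfc : f' = f.conj
    · rw [h, hfc]
    · have h4 := h3 f' (Ne.symm hne) hfc
      have h5 : (σ • f).2 (a (σ • f).1) = (σ • f').2 (a (σ • f').1) := congrArg σ h
      rw [h1, h4] at h5
      rw [h5, h]
  exact im_ne ha f hf (Complex.conj_eq_iff_im.1 key)

theorem exists_tau (K : IntermediateField ℚ ℂ) [FiniteDimensional ℚ K] (γ : K ≃ₐ[ℚ] K) :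
    ∃ τ : RingAut ℂ, ∀ w : K, ((γ w : K) : ℂ) = τ (w : ℂ) := by
  have : NumberField K := ⟨⟩
  obtain ⟨τ, hτ⟩ := exists_aut (K.val : K →+* ℂ) ((K.val : K →+* ℂ).comp (γ : K →+* K))
  exact ⟨τ, fun w => (hτ w).symm⟩

open Classical in
/-- The number of automorphisms which fix `z x`. -/
noncomputable def nS {K : Type} [Field K] [Algebra ℚ K] [FiniteDimensional ℚ K] {q g : ℕ} {I : Type}
    (S : SP q g K I) (x : I) : ℕ :=
  (univ.filter fun γ : K ≃ₐ[ℚ] K => γ (S.z x) = S.z x).card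

theorem nS_pos {K : Type} [Field K] [Algebra ℚ K] [FiniteDimensional ℚ K] {q g : ℕ} {I : Type}
    (S : SP q g K I) (x : I) : 0 < nS S x := by
  classical
  unfold nS
  refine card_pos.2 ⟨1, ?_⟩
  rw [mem_filter]
  exact ⟨mem_univ _, rfl⟩

/-- The value of `e x` on an element which is multiplied by `-1` in the exponent. -/
theorem e_of_fix {K : Type} [Field K] [Algebra ℚ K] [FiniteDimensional ℚ K] {Q g : ℕ} (hQ : 0 < Q) {I : Type}
    (S : SP Q g K I) (x : I) (β : K) (h1 : ∀ γ : K ≃ₐ[ℚ] K, γ (S.z x) = S.z x → γ β = β)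
    (h2 : ∀ γ : K ≃ₐ[ℚ] K, γ (S.z x) = (Q : K) / S.z x → γ β = (Q : K) / β) :
    S.e x β = (β ^ 2 / (Q : K)) ^ nS S x := by
  classical
  have hchar : CharZero K := algebraRat.charZero K
  have hQK : (Q : K) ≠ 0 := Nat.cast_ne_zero.2 hQ.ne'
  have hc : (univ.filter (fun γ : K ≃ₐ[ℚ] K => γ (S.z x) = S.z x)).card =
      (univ.filter (fun γ : K ≃ₐ[ℚ] K => γ (S.z x) = (Q : K) / S.z x)).card := by
    refine card_equiv (Equiv.mulLeft (S.s x)) fun γ => ?_
    simp only [mem_filter, mem_univ, true_and]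
    show γ (S.z x) = S.z x ↔ S.s x (γ (S.z x)) = (Q : K) / S.z x
    rw [← S.s1 x]
    exact (S.s x).injective.eq_iff.symm
  have e1 : pr (S.z x) (S.z x) β = β ^ nS S x := by
    unfold pr nS
    rw [prod_congr rfl fun γ hγ => h1 γ (mem_filter.1 hγ).2, prod_const]
  have e2 : pr (S.z x) ((Q : K) / S.z x) β = ((Q : K) / β) ^ nS S x := by
    unfold pr nS
    rw [hc, prod_congr rfl fun γ hγ => h2 γ (mem_filter.1 hγ).2, prod_const]
  show pr _ _ β / pr _ _ β = _
  rw [e1, e2, ← div_pow]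
  congr 1
  rw [div_div_eq_mul_div, pow_two]

theorem e_of_swap {K : Type} [Field K] [Algebra ℚ K] [FiniteDimensional ℚ K] {Q g : ℕ} {I : Type}
    (S : SP Q g K I) (x : I) (β : K) (hβ : β ≠ 0)
    (h1 : ∀ γ : K ≃ₐ[ℚ] K, γ (S.z x) = S.z x → S.s x (γ β) = γ β) : S.e x β = 1 := by
  classical
  have e1 : pr (S.z x) (S.z x) β = pr (S.z x) ((Q : K) / S.z x) β := by
    unfold pr
    refine prod_equiv (Equiv.mulLeft (S.s x)) (fun γ => ?_) fun γ hγ => ?_
    · simp only [mem_filter, mem_univ, true_and]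
      show γ (S.z x) = S.z x ↔ S.s x (γ (S.z x)) = (Q : K) / S.z x
      rw [← S.s1 x]
      exact (S.s x).injective.eq_iff.symm
    · exact (h1 γ (mem_filter.1 hγ).2).symm
  show pr _ _ β / pr _ _ β = 1
  rw [e1]
  refine div_self ?_
  unfold pr
  exact prod_ne_zero_iff.2 fun γ _ => (map_ne_zero γ).2 hβ

end TWF
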