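import Pool.Agent.Lib.MP_021685_agTWF.W4

/-! T-WEIL2: counting in a multiplicative relation. -/

set_option autoImplicit false

namespace TWF

open Polynomial Module Finset Pool.Agent.Lib.MP_802513_ag Pool.Agent.Lib.MP_802513_ag.SD TK

variable {r : ℕ} {E : Fin r → Type} [∀ t, Field (E t)]

/-- The indices of the conjugates of the `a i k`: the field, the number, the embedding. -/
abbrev Idx (E : Fin r → Type) [∀ t, Field (E t)] (J : Fin r → Type) : Type := Σ i, J i × (E i →+* ℂ)

variable {J : Fin r → Type}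

/-- The embedding of an index. -/
def Idx.emb (j : Idx E J) : Emb E := ⟨j.1, j.2.2⟩

/-- The value of an index. -/
def Idx.val (a : ∀ i, J i → E i) (j : Idx E J) : ℂ := j.2.2 (a j.1 j.2.1)

/-- The complex conjugate of an index. -/
noncomputable def Idx.conj (j : Idx E J) : Idx E J := ⟨j.1, j.2.1, (starRingEnd ℂ).comp j.2.2⟩

theorem isWeil_of_indep {Q : ℕ} (hQ : 0 < Q) {K J : Type} [Field K] [CharZero K] [Fintype J] {a : J → K}
    (hW : ∀ k (φ : K →+* ℂ), φ (a k) * starRingEnd ℂ (φ (a k)) = (Q : ℂ)) (hI : IsIndep Q a) (k : J) :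
    IsWeil Q (a k) := by
  classical
  refine ⟨hW k, fun n hn h => ?_⟩
  have hQK : (Q : K) ≠ 0 := Nat.cast_ne_zero.2 hQ.ne'
  have h1 := hI (Pi.single k (n : ℤ)) (by
    rw [prod_eq_single k (fun l _ hl => by rw [Pi.single_eq_of_ne hl, zpow_zero]) fun h => absurd (mem_univ _) h,
      Pi.single_eq_same, zpow_natCast, div_pow, ← pow_mul, h]
    exact div_self (pow_ne_zero _ hQK)) k
  rw [Pi.single_eq_same] at h1
  exact hn.ne' (by exact_mod_cast h1)

open Classical in
theorem indep_count {Q : ℕ} (hQ : 0 < Q) [∀ t, CharZero (E t)] [∀ i, Fintype (J i)] {a : ∀ i, J i → E i}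
    (hW : ∀ i k (φ : E i →+* ℂ), φ (a i k) * starRingEnd ℂ (φ (a i k)) = (Q : ℂ)) (hI : ∀ i, IsIndep Q (a i))
    (f0 : Emb E) {n : ℕ} (hn : 0 < n) {T : Type} [Fintype T] (G w : T → ℂ) (idx : T → Idx E J)
    (hw : ∀ t, w t = (idx t).val a) (e : T → ℤ)
    (hG1 : ∀ t, (idx t).emb = f0 ∨ (idx t).emb = f0.conj → G t = (w t ^ 2 / (Q : ℂ)) ^ (2 * n))
    (hG2 : ∀ t, (idx t).emb ≠ f0 → (idx t).emb ≠ f0.conj → G t = 1) (hrel : ∏ t, G t ^ e t = 1) (k : J f0.1) :
    ∑ t with idx t = ⟨f0.1, k, f0.2⟩, e t = ∑ t with idx t = ⟨f0.1, k, (starRingEnd ℂ).comp f0.2⟩, e t := by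
  obtain ⟨i, φ⟩ := f0
  have hQC : (Q : ℂ) ≠ 0 := Nat.cast_ne_zero.2 hQ.ne'
  have ha0 : ∀ k, φ (a i k) ≠ 0 := fun k h0 => by
    have h1 := hW i k φ
    rw [h0, zero_mul] at h1
    exact hQC h1.symm
  have hφ : (starRingEnd ℂ).comp φ ≠ φ := by
    intro h
    have h1 := im_ne (s := {i}) (a := fun i' => if h : Nonempty (J i') then a i' (Classical.choice h) else 0) (Q := Q)
      (fun i' hi' => by
        have : Nonempty (J i') := by
          rw [mem_singleton] at hi'
          subst hi'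
          exact ⟨k⟩
        show IsWeil Q (if h : Nonempty (J i') then a i' (Classical.choice h) else 0)
        rw [dif_pos this]
        exact isWeil_of_indep hQ (hW i') (hI i') _) ⟨i, φ⟩ (mem_singleton_self i)
    apply h1
    exact Complex.conj_eq_iff_im.1 (RingHom.congr_fun h _)
  let u : J i → E i := fun k => a i k ^ 2 / (Q : E i)
  let c : T → J i → ℤ := fun t k => (2 * n : ℕ) * ((if idx t = ⟨i, k, φ⟩ then 1 else 0) -
    (if idx t = ⟨i, k, (starRingEnd ℂ).comp φ⟩ then 1 else 0))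
  let A : T → E i := fun t => ∏ k, u k ^ c t k
  have hu : ∀ k, φ (u k) = φ (a i k) ^ 2 / (Q : ℂ) := fun k => by
    show φ (a i k ^ 2 / (Q : E i)) = _
    rw [map_div₀, map_pow, map_natCast]
  have hA : ∀ t, φ (A t) = G t := by
    intro t
    have hwt := hw t
    show φ (∏ k, u k ^ c t k) = G t
    by_cases h1 : (idx t).emb = ⟨i, φ⟩
    · rw [hG1 t (Or.inl h1), hwt]
      obtain ⟨k0, hk0⟩ : ∃ k0, idx t = ⟨i, k0, φ⟩ := by
        generalize idx t = j at h1
        obtain ⟨i', k', φ'⟩ := j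
        have h2 : (⟨i', φ'⟩ : Emb E) = ⟨i, φ⟩ := h1
        cases h2
        exact ⟨k', rfl⟩
      have h3 : ∀ k', k' ≠ k0 → c t k' = 0 := fun k' hk' => by
        show ((2 * n : ℕ) : ℤ) * ((if idx t = ⟨i, k', φ⟩ then 1 else 0) -
          (if idx t = ⟨i, k', (starRingEnd ℂ).comp φ⟩ then 1 else 0)) = 0
        rw [hk0, if_neg, if_neg, sub_zero, mul_zero]
        · intro h
          have h4 := (Prod.mk.inj (eq_of_heq (Sigma.mk.inj_iff.1 h).2)).2
          exact hφ h4.symm
        · intro h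
          exact hk' (Prod.mk.inj (eq_of_heq (Sigma.mk.inj_iff.1 h).2)).1.symm
      have h4 : c t k0 = (2 * n : ℕ) := by
        show ((2 * n : ℕ) : ℤ) * ((if idx t = ⟨i, k0, φ⟩ then 1 else 0) -
          (if idx t = ⟨i, k0, (starRingEnd ℂ).comp φ⟩ then 1 else 0)) = _
        rw [hk0, if_pos rfl, if_neg, sub_zero, mul_one]
        intro h
        exact hφ (Prod.mk.inj (eq_of_heq (Sigma.mk.inj_iff.1 h).2)).2.symm
      rw [prod_eq_single k0 (fun k' _ hk' => by rw [h3 k' hk', zpow_zero]) fun h => absurd (mem_univ _) h, h4,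
        zpow_natCast, map_pow, hu, hk0]
      rfl
    · by_cases h2 : (idx t).emb = Emb.conj ⟨i, φ⟩
      · rw [hG1 t (Or.inr h2), hwt]
        obtain ⟨k0, hk0⟩ : ∃ k0, idx t = ⟨i, k0, (starRingEnd ℂ).comp φ⟩ := by
          generalize idx t = j at h2
          obtain ⟨i', k', φ'⟩ := j
          have h3 : (⟨i', φ'⟩ : Emb E) = ⟨i, (starRingEnd ℂ).comp φ⟩ := h2
          cases h3
          exact ⟨k', rfl⟩
        have h3 : ∀ k', k' ≠ k0 → c t k' = 0 := fun k' hk' => by
          show ((2 * n : ℕ) : ℤ) * ((if idx t = ⟨i, k', φ⟩ then 1 else 0) -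
            (if idx t = ⟨i, k', (starRingEnd ℂ).comp φ⟩ then 1 else 0)) = 0
          rw [hk0, if_neg, if_neg, sub_zero, mul_zero]
          · intro h
            exact hk' (Prod.mk.inj (eq_of_heq (Sigma.mk.inj_iff.1 h).2)).1.symm
          · intro h
            exact hφ (Prod.mk.inj (eq_of_heq (Sigma.mk.inj_iff.1 h).2)).2
        have h4 : c t k0 = -((2 * n : ℕ) : ℤ) := by
          show ((2 * n : ℕ) : ℤ) * ((if idx t = ⟨i, k0, φ⟩ then 1 else 0) -
            (if idx t = ⟨i, k0, (starRingEnd ℂ).comp φ⟩ then 1 else 0)) = _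
          rw [hk0, if_pos rfl, if_neg, zero_sub, mul_neg, mul_one]
          intro h
          exact hφ (Prod.mk.inj (eq_of_heq (Sigma.mk.inj_iff.1 h).2)).2
        rw [prod_eq_single k0 (fun k' _ hk' => by rw [h3 k' hk', zpow_zero]) fun h => absurd (mem_univ _) h, h4,
          zpow_neg, zpow_natCast, map_inv₀, map_pow, hu, hk0]
        have h5 : Idx.val a ⟨i, k0, (starRingEnd ℂ).comp φ⟩ = (Q : ℂ) / φ (a i k0) := by
          rw [eq_div_iff (ha0 k0), mul_comm]
          exact hW i k0 φ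
        rw [h5, ← inv_pow]
        congr 1
        field_simp
      · rw [hG2 t h1 h2]
        have h3 : ∀ k', c t k' = 0 := fun k' => by
          show ((2 * n : ℕ) : ℤ) * ((if idx t = ⟨i, k', φ⟩ then 1 else 0) -
            (if idx t = ⟨i, k', (starRingEnd ℂ).comp φ⟩ then 1 else 0)) = 0
          rw [if_neg, if_neg, sub_zero, mul_zero]
          · intro h
            apply h2
            rw [h]
            rfl
          · intro h
            apply h1
            rw [h]
            rfl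
        rw [prod_congr rfl fun k' _ => by rw [h3 k', zpow_zero], prod_const_one, map_one]
  have h1 : ∏ t, A t ^ e t = 1 := by
    apply φ.injective
    rw [map_prod, map_one, ← hrel]
    exact prod_congr rfl fun t _ => by rw [map_zpow₀, hA]
  have h2 : ∏ k, u k ^ (∑ t, c t k * e t) = 1 := by
    rw [← h1]
    have hu0 : ∀ k, u k ≠ 0 := fun k h0 => by
      have h3 := hu k
      rw [h0, map_zero] at h3
      exact div_ne_zero (pow_ne_zero 2 (ha0 k)) hQC h3.symm
    calc ∏ k, u k ^ (∑ t, c t k * e t) = ∏ k, ∏ t, u k ^ (c t k * e t) := by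
          refine prod_congr rfl fun k _ => ?_
          have : ∀ s : Finset T, u k ^ (∑ t ∈ s, c t k * e t) = ∏ t ∈ s, u k ^ (c t k * e t) := by
            intro s
            induction s using Finset.induction_on with
            | empty => simp
            | insert t s ht ih => rw [sum_insert ht, prod_insert ht, zpow_add₀ (hu0 k), ih]
          exact this univ
      _ = ∏ t, ∏ k, u k ^ (c t k * e t) := prod_comm
      _ = ∏ t, A t ^ e t := by
          refine prod_congr rfl fun t _ => ?_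
          show _ = (∏ k, u k ^ c t k) ^ e t
          rw [← prod_zpow]
          exact prod_congr rfl fun k _ => zpow_mul _ _ _
  have h3 := hI i (fun k => ∑ t, c t k * e t) h2 k
  have h4 : ((2 * n : ℕ) : ℤ) * (∑ t with idx t = ⟨i, k, φ⟩, e t -
      ∑ t with idx t = ⟨i, k, (starRingEnd ℂ).comp φ⟩, e t) = 0 := by
    rw [← h3, sum_filter, sum_filter, ← sum_sub_distrib, mul_sum]
    refine sum_congr rfl fun t _ => ?_
    show _ = ((2 * n : ℕ) : ℤ) * ((if idx t = ⟨i, k, φ⟩ then 1 else 0) -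
      (if idx t = ⟨i, k, (starRingEnd ℂ).comp φ⟩ then 1 else 0)) * e t
    split_ifs <;> ring
  have h5 : ((2 * n : ℕ) : ℤ) ≠ 0 := by
    have : 2 * n ≠ 0 := by omega
    exact_mod_cast this
  exact sub_eq_zero.1 ((mul_eq_zero.1 h4).resolve_left h5)

end TWF
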