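import Pool.Agent.Lib.MP_021685_agTWF.W5

/-! T-WEIL2: the multiplicative relations between the conjugates of all the Weil numbers. -/

set_option autoImplicit false

namespace TWF

open Polynomial Module Finset Pool.Agent.Lib.MP_802513_ag Pool.Agent.Lib.MP_802513_ag.SD TK

variable {r : ℕ} {E : Fin r → Type} [∀ t, Field (E t)] [∀ t, NumberField (E t)]

omit [∀ t, NumberField (E t)] in
theorem hom_eq {i : Fin r} {φ ψ : E i →+* ℂ} (h : (⟨i, φ⟩ : Emb E) = ⟨i, ψ⟩) : φ = ψ :=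
  eq_of_heq (Sigma.mk.inj_iff.1 h).2

open Classical in
theorem core [∀ t, NumberField.IsCMField (E t)] {g Q : ℕ} (hQ : 0 < Q) (hF : HI.HasFlips E)
    (hdim : ∀ i, finrank ℚ (E i) = 2 * g) {J : Fin r → Type} [∀ i, Fintype (J i)] {a : ∀ i, J i → E i}
    (hW : ∀ i k (φ : E i →+* ℂ), φ (a i k) * starRingEnd ℂ (φ (a i k)) = (Q : ℂ)) (hI : ∀ i, IsIndep Q (a i))
    (K : IntermediateField ℚ ℂ) [FiniteDimensional ℚ K] [Normal ℚ K]
    (hK : ∀ i k (φ : E i →+* ℂ), φ (a i k) ∈ K) :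
    ∃ (I : Type) (_ : Fintype I) (S : SP Q g K I),
      (∀ y : I, ∃ i k, ∃ φ : E i →+* ℂ, ((S.z y : K) : ℂ) = φ (a i k)) ∧
      ∀ (T : Type) [Fintype T] (idx : T → Idx E J) (w : T → K) (e : T → ℤ), (∀ t, ((w t : K) : ℂ) = (idx t).val a) →
        (∀ x, ∏ t, (S.e x (w t) ^ 2) ^ e t = 1) → ∀ j : Idx E J, ∑ t with idx t = j, e t = ∑ t with idx t = j.conj, e t := by
  have hQC : (Q : ℂ) ≠ 0 := Nat.cast_ne_zero.2 hQ.ne'
  let s : Finset (Fin r) := univ.filter fun i => Nonempty (J i)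
  let a0 : ∀ i, E i := fun i => if h : Nonempty (J i) then a i (Classical.choice h) else 0
  have ha0 : ∀ (i : Fin r) (h : Nonempty (J i)), a0 i = a i (Classical.choice h) := fun i h => dif_pos h
  have hs : ∀ i, i ∈ s ↔ Nonempty (J i) := fun i => by simp only [s, mem_filter, mem_univ, true_and]
  have ha : ∀ i ∈ s, IsWeil Q (a0 i) := fun i hi => by
    rw [ha0 i ((hs i).1 hi)]
    exact isWeil_of_indep hQ (hW i) (hI i) _
  obtain ⟨I, hI', S, hS1, hS2⟩ := exists_sp hQ hF hdim s ha K fun i hi φ => by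
    rw [ha0 i ((hs i).1 hi)]
    exact hK i _ φ
  refine ⟨I, hI', S, ?_, ?_⟩
  · intro y
    obtain ⟨i, hi, φ, h⟩ := hS1 y
    exact ⟨i, Classical.choice ((hs i).1 hi), φ, by rw [h, ha0 i ((hs i).1 hi)]⟩
  intro T _ idx w e hw hrel j
  choose ix hix φx hφx using hS1
  let f : I → Emb E := fun x => ⟨ix x, φx x⟩
  have hfs : ∀ x, (f x).1 ∈ s := hix
  have hz : ∀ x, ((S.z x : K) : ℂ) = (f x).2 (a0 (f x).1) := hφx
  have hv0 : ∀ f' : Emb E, f'.1 ∈ s → f'.2 (a0 f'.1) ≠ 0 := fun f' hf' h0 => by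
    have h1 := (ha f'.1 hf').1 f'.2
    rw [h0, zero_mul] at h1
    exact hQC h1.symm
  have hvc : ∀ f' : Emb E, f'.1 ∈ s → f'.conj.2 (a0 f'.conj.1) = (Q : ℂ) / f'.2 (a0 f'.1) := fun f' hf' => by
    rw [eq_div_iff (hv0 f' hf'), mul_comm]
    exact (ha f'.1 hf').1 f'.2
  have hmem : ∀ f' : Emb E, f'.1 ∈ s → f'.2 (a0 f'.1) ∈ K := fun f' hf' => by
    rw [ha0 _ ((hs _).1 hf')]
    exact hK _ _ _
  have hcov : ∀ f' : Emb E, f'.1 ∈ s → ∃ x, f' = f x ∨ f' = (f x).conj := by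
    intro f' hf'
    obtain ⟨y, hy | hy⟩ := hS2 f'.1 hf' f'.2 ⟨_, hmem f' hf'⟩ rfl
    · refine ⟨y, Or.inl (v_inj hF ha hf' ?_)⟩
      rw [← hz, ← hy]
    · refine ⟨y, Or.inr (v_inj hF ha hf' ?_)⟩
      rw [hvc _ (hfs y), ← hz]
      have h1 := congrArg (fun w : K => (w : ℂ)) hy
      simpa using h1
  have hzQ : ∀ x, (((Q : K) / S.z x : K) : ℂ) = (Q : ℂ) / (f x).2 (a0 (f x).1) := fun x => by
    push_cast
    rw [hz]
  have hfix : ∀ (x : I) (γ : K ≃ₐ[ℚ] K) (τ : RingAut ℂ), (∀ w : K, ((γ w : K) : ℂ) = τ (w : ℂ)) →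
      γ (S.z x) = S.z x → τ • f x = f x ∧ τ • (f x).conj = (f x).conj := by
    intro x γ τ hτ hγ
    have h0 : τ ((f x).2 (a0 (f x).1)) = (f x).2 (a0 (f x).1) := by
      rw [← hz, ← hτ, hγ]
    refine ⟨v_inj hF ha (hfs x) h0, v_inj hF ha (hfs x) ?_⟩
    show τ ((f x).conj.2 (a0 (f x).conj.1)) = (f x).conj.2 (a0 (f x).conj.1)
    rw [hvc _ (hfs x), map_div₀, map_natCast, h0]
  have hswap : ∀ (x : I) (γ : K ≃ₐ[ℚ] K) (τ : RingAut ℂ), (∀ w : K, ((γ w : K) : ℂ) = τ (w : ℂ)) →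
      γ (S.z x) = (Q : K) / S.z x → τ • f x = (f x).conj := by
    intro x γ τ hτ hγ
    refine v_inj hF ha (hfs x) ?_
    show τ ((f x).2 (a0 (f x).1)) = (f x).conj.2 (a0 (f x).conj.1)
    rw [hvc _ (hfs x), ← hz, ← hτ, hγ, hzQ, hz]
  -- the value on the conjugates at the embedding `f x`
  have hF1 : ∀ (x : I) (k : J (f x).1) (β : K), (β : ℂ) = (f x).2 (a (f x).1 k) →
      S.e x β = (β ^ 2 / (Q : K)) ^ nS S x := by
    intro x k β hβ
    refine e_of_fix hQ S x β (fun γ hγ => ?_) fun γ hγ => ?_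
    · obtain ⟨τ, hτ⟩ := exists_tau K γ
      have h1 := hom_eq (hfix x γ τ hτ hγ).1
      apply Subtype.ext
      rw [hτ, hβ]
      exact RingHom.congr_fun h1 _
    · obtain ⟨τ, hτ⟩ := exists_tau K γ
      have h1 := hom_eq (hswap x γ τ hτ hγ)
      apply Subtype.ext
      have h2 : ((((Q : K) / β : K)) : ℂ) = (Q : ℂ) / (f x).2 (a (f x).1 k) := by
        push_cast
        rw [hβ]
      rw [hτ, h2, hβ]
      refine (RingHom.congr_fun h1 _).trans ?_
      have h3 := hW (f x).1 k (f x).2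
      rw [eq_div_iff, mul_comm]
      · exact h3
      · intro h0
        rw [h0, zero_mul] at h3
        exact hQC h3.symm
  have hF1' : ∀ (x : I) (k : J (f x).1) (β : K), (β : ℂ) = starRingEnd ℂ ((f x).2 (a (f x).1 k)) →
      S.e x β = (β ^ 2 / (Q : K)) ^ nS S x := by
    intro x k β hβ
    let β' : K := ⟨(f x).2 (a (f x).1 k), hK _ _ _⟩
    have h1 : β' * β = (Q : K) := by
      apply Subtype.ext
      show (f x).2 (a (f x).1 k) * (β : ℂ) = _
      rw [hβ, hW]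
      simp
    have hQK : (Q : K) ≠ 0 := Nat.cast_ne_zero.2 hQ.ne'
    have hβ0 : β ≠ 0 := fun h0 => hQK (by rw [← h1, h0, mul_zero])
    have hβ'0 : β' ≠ 0 := fun h0 => hQK (by rw [← h1, h0, zero_mul])
    have h2 : S.e x β' * S.e x β = 1 := by rw [← S.e_mul, h1, S.e_q hQ]
    rw [hF1 x k β' rfl] at h2
    have h3 : (β' ^ 2 / (Q : K)) ^ nS S x * (β ^ 2 / (Q : K)) ^ nS S x = 1 := by
      rw [← mul_pow]
      have : β' ^ 2 / (Q : K) * (β ^ 2 / (Q : K)) = 1 := by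
        rw [div_mul_div_comm, ← mul_pow, h1, pow_two]
        exact div_self (mul_ne_zero hQK hQK)
      rw [this, one_pow]
    exact mul_left_cancel₀ (pow_ne_zero _ (div_ne_zero (pow_ne_zero 2 hβ'0) hQK)) (h2.trans h3.symm)
  have hF2 : ∀ (x : I) (f' : Emb E), f'.1 ∈ s → f' ≠ f x → f' ≠ (f x).conj → ∀ (b : E f'.1) (β : K),
      (β : ℂ) = f'.2 b → β ≠ 0 → S.e x β = 1 := by
    intro x f' hf' hn1 hn2 b β hβ hβ0
    refine e_of_swap S x β hβ0 fun γ hγ => ?_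
    obtain ⟨τ, hτ⟩ := exists_tau K γ
    obtain ⟨τs, hτs⟩ := exists_tau K (S.s x)
    obtain ⟨t1, t2⟩ := hfix x γ τ hτ hγ
    have hm1 : τ • f' ≠ f x := fun h => hn1 ((smul_left_cancel τ (h.trans t1.symm)))
    have hm2 : τ • f' ≠ (f x).conj := fun h => hn2 ((smul_left_cancel τ (h.trans t2.symm)))
    have hfix2 : τs • (τ • f') = τ • f' := by
      obtain ⟨y, hy⟩ := hcov (τ • f') hf'
      have hyx : y ≠ x := by
        rintro rfl
        rcases hy with hy | hy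
        · exact hm1 hy
        · exact hm2 hy
      have h1 : τs ((f y).2 (a0 (f y).1)) = (f y).2 (a0 (f y).1) := by
        rw [← hz, ← hτs, S.s2 x y hyx]
      rcases hy with hy | hy
      · rw [hy]
        exact v_inj hF ha (hfs y) h1
      · rw [hy]
        refine v_inj hF ha (hfs y) ?_
        show τs ((f y).conj.2 (a0 (f y).conj.1)) = (f y).conj.2 (a0 (f y).conj.1)
        rw [hvc _ (hfs y), map_div₀, map_natCast, h1]
    apply Subtype.ext
    rw [hτs, hτ, hβ]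
    exact RingHom.congr_fun (hom_eq hfix2) b
  -- the count at the embedding `f x`
  have hcount : ∀ (x : I) (k : J (f x).1), ∑ t with idx t = ⟨(f x).1, k, (f x).2⟩, e t =
      ∑ t with idx t = ⟨(f x).1, k, (starRingEnd ℂ).comp (f x).2⟩, e t := by
    intro x k
    refine indep_count hQ hW hI (f x) (nS_pos S x) (fun t => ((S.e x (w t) ^ 2 : K) : ℂ)) (fun t => (w t : ℂ)) idx hw e
      (fun t ht => ?_) (fun t h1 h2 => ?_) ?_ k
    · have h1 : S.e x (w t) = (w t ^ 2 / (Q : K)) ^ nS S x := by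
        have hwt := hw t
        generalize idx t = j' at ht hwt
        obtain ⟨i', k', φ'⟩ := j'
        rcases ht with ht | ht
        · have h2 : (⟨i', φ'⟩ : Emb E) = f x := ht
          have h3 : ∀ f' : Emb E, f' = f x → ∀ k'' : J f'.1, ((w t : K) : ℂ) = f'.2 (a f'.1 k'') →
              S.e x (w t) = (w t ^ 2 / (Q : K)) ^ nS S x := by
            rintro f' rfl k'' hk''
            exact hF1 x k'' _ hk''
          exact h3 ⟨i', φ'⟩ h2 k' hwt
        · have h2 : (⟨i', φ'⟩ : Emb E) = (f x).conj := ht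
          have h3 : ∀ f' : Emb E, f' = (f x).conj → ∀ k'' : J f'.1, ((w t : K) : ℂ) = f'.2 (a f'.1 k'') →
              S.e x (w t) = (w t ^ 2 / (Q : K)) ^ nS S x := by
            rintro f' rfl k'' hk''
            exact hF1' x k'' _ hk''
          exact h3 ⟨i', φ'⟩ h2 k' hwt
      show ((S.e x (w t) ^ 2 : K) : ℂ) = _
      rw [h1, ← pow_mul, mul_comm (nS S x) 2]
      push_cast
      rfl
    · have hwt := hw t
      have hb0 : w t ≠ 0 := fun h0 => by
        rw [h0] at hwt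
        have h3 := hW (idx t).1 (idx t).2.1 (idx t).2.2
        have h4 : (idx t).2.2 (a (idx t).1 (idx t).2.1) = 0 := hwt.symm
        rw [h4, zero_mul] at h3
        exact hQC h3.symm
      have h3 := hF2 x (idx t).emb ((hs _).2 ⟨(idx t).2.1⟩) h1 h2 _ (w t) hwt hb0
      show ((S.e x (w t) ^ 2 : K) : ℂ) = 1
      rw [h3, one_pow]
      rfl
    · have h1 := congrArg (fun w : K => (w : ℂ)) (hrel x)
      have h2 : ((∏ t, (S.e x (w t) ^ 2) ^ e t : K) : ℂ) = ∏ t, ((S.e x (w t) ^ 2 : K) : ℂ) ^ e t := by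
        push_cast
        rfl
      exact h2.symm.trans (h1.trans (by simp))
  obtain ⟨i, k, φ⟩ := j
  obtain ⟨x, hx⟩ := hcov ⟨i, φ⟩ ((hs i).2 ⟨k⟩)
  have key : ∀ f' : Emb E, (f' = f x ∨ f' = (f x).conj) → ∀ k' : J f'.1,
      ∑ t with idx t = ⟨f'.1, k', f'.2⟩, e t = ∑ t with idx t = ⟨f'.1, k', (starRingEnd ℂ).comp f'.2⟩, e t := by
    rintro f' (rfl | rfl) k'
    · exact hcount x k'
    · refine Eq.trans (hcount x k').symm ?_
      have h1 : (starRingEnd ℂ).comp ((f x).conj).2 = (f x).2 := by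
        ext b
        exact Complex.conj_conj _
      rw [h1]
      rfl
  exact key ⟨i, φ⟩ hx k

end TWF
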